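import Pool.Agent.H85.SingCC

namespace Pool.Agent.Results.MP_27f38a_gt.ProductContact

open Pool.Agent.H85.Sing

theorem result : ∃ (n : ℕ) (Δ : EuclideanSpace ℝ (Fin n) → Submodule ℝ (EuclideanSpace ℝ (Fin n))),
    IsSmoothDist Δ ∧ SingTransitive Δ ∧ ¬ SymIsLie Δ :=
  ⟨6, CC, smooth_CC, trans_CC, not_lie⟩

end Pool.Agent.Results.MP_27f38a_gt.ProductContact
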